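import Mathlib

/-!
Lattices with few short vectors: definitions.
-/

set_option autoImplicit false

namespace Pool.Agent.H779.LT

/-- The number of the nonzero vectors of the lattice `A ℤⁿ` which are shorter than `s`. -/
noncomputable def shortCount {n : ℕ} (A : Matrix (Fin n) (Fin n) ℝ) (s : ℝ) : ℕ :=
  {w : Fin n → ℤ | w ≠ 0 ∧ ∑ i, (A.mulVec fun j => (w j : ℝ)) i ^ 2 < s ^ 2}.ncard

/-- For all `s ≤ r` the lattice `A ℤⁿ` has at most `μ (s / r) ^ n` nonzero vectors shorter than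
`s`. -/
def Relaxed {n : ℕ} (μ r : ℝ) (A : Matrix (Fin n) (Fin n) ℝ) : Prop :=
  ∀ s : ℝ, 0 < s → s ≤ r → (shortCount A s : ℝ) ≤ μ * (s / r) ^ n

/-- The relaxed Hermite constant `γ_n(μ)`: the supremum of `r² / det(L)^(2/n)` over the lattices
`L` and the radii `r > 0` such that `L` has at most `μ (s / r) ^ n` nonzero vectors shorter than
`s`, for all `s ≤ r`. -/
noncomputable def relHermite (n : ℕ) (μ : ℝ) : ℝ :=
  sSup {x : ℝ | ∃ (A : Matrix (Fin n) (Fin n) ℝ) (r : ℝ), A.det ≠ 0 ∧ 0 < r ∧ Relaxed μ r A ∧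
    x = r ^ 2 / |A.det| ^ ((2 : ℝ) / n)}

/-- `γ_n(μ) / n` for `μ = 2 ^ (u n)`. -/
noncomputable def relRatio (u : ℝ) (n : ℕ) : ℝ := relHermite n (2 ^ (u * n)) / n

end Pool.Agent.H779.LT
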