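import Mathlib
import Pool.Agent.H779.LT.Def
import Pool.Graph.R_seed8.TH220.HG.Sub

/-!
Counting short vectors of lattices.
-/

set_option autoImplicit false

open Matrix Finset

namespace Pool.Agent.H779.LT

open Pool.Agent.H160R3.Herm Pool.Agent.TH220.HG

variable {n : ℕ}

theorem shortCount_eq (A : Matrix (Fin n) (Fin n) ℝ) (s : ℝ) :
    shortCount A s = {w : Fin n → ℤ | w ≠ 0 ∧ nsq A w < s ^ 2}.ncard := rfl

theorem short_set_finite {A : Matrix (Fin n) (Fin n) ℝ} (hA : A.det ≠ 0) (s : ℝ) :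
    {w : Fin n → ℤ | w ≠ 0 ∧ nsq A w < s ^ 2}.Finite :=
  (finite_lt hA (s ^ 2)).subset fun _ hw => hw.2

theorem shortCount_mono {A : Matrix (Fin n) (Fin n) ℝ} (hA : A.det ≠ 0) {s t : ℝ} (hs : 0 ≤ s)
    (hst : s ≤ t) : shortCount A s ≤ shortCount A t := by
  rw [shortCount_eq, shortCount_eq]
  refine Set.ncard_le_ncard ?_ (short_set_finite hA t)
  rintro w ⟨hw, h⟩
  exact ⟨hw, h.trans_le (pow_le_pow_left₀ hs hst 2)⟩

theorem shortCount_eq_zero {A : Matrix (Fin n) (Fin n) ℝ} {s : ℝ} (hs : 0 ≤ s)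
    (h : s ^ 2 ≤ minSq A) : shortCount A s = 0 := by
  rw [shortCount_eq]
  have : {w : Fin n → ℤ | w ≠ 0 ∧ nsq A w < s ^ 2} = ∅ := by
    rw [Set.eq_empty_iff_forall_notMem]
    rintro w ⟨hw, hlt⟩
    exact absurd (minSq_le A w hw) (not_le.2 (lt_of_lt_of_le hlt h))
  rw [this, Set.ncard_empty]

theorem short_eq (A : Matrix (Fin n) (Fin n) ℝ) {t s : ℝ} (h : s ^ 2 = t * minSq A) :
    ((short A t).ncard : ℕ) = shortCount A s := by
  rw [shortCount_eq, h]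
  rfl

theorem two_le_shortCount (hn : 0 < n) {A : Matrix (Fin n) (Fin n) ℝ} (hA : A.det ≠ 0) {s : ℝ}
    (hs : minSq A < s ^ 2) : 1 ≤ shortCount A s := by
  obtain ⟨w, hw, h⟩ := exists_min hn hA
  rw [shortCount_eq, Nat.one_le_iff_ne_zero, ← Nat.pos_iff_ne_zero, Set.ncard_pos
    (short_set_finite hA s)]
  exact ⟨w, hw, by rw [h]; exact hs⟩

/-- The values in the definition of the relaxed Hermite constant are bounded by
`max 1 μ ^ (2/n) γ_n`. -/
theorem value_le_of_relaxed (hn : 0 < n) {A : Matrix (Fin n) (Fin n) ℝ} (hA : A.det ≠ 0) {μ r : ℝ}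
    (hr : 0 < r) (h : Relaxed μ r A) :
    r ^ 2 / |A.det| ^ ((2 : ℝ) / n) ≤ (max 1 μ) ^ ((2 : ℝ) / n) * hermite n := by
  have hmin := minSq_pos hn hA
  have hdet : 0 < |A.det| := abs_pos.2 hA
  have hn' : (0 : ℝ) < n := by exact_mod_cast hn
  have hh := le_hermite hn A hA
  have hh0 : 0 ≤ hermite n := le_trans (div_nonneg hmin.le (by positivity)) hh
  have h1 : (1 : ℝ) ≤ (max 1 μ) ^ ((2 : ℝ) / n) :=
    Real.one_le_rpow (le_max_left _ _) (by positivity)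
  rcases le_or_gt (r ^ 2) (minSq A) with hle | hgt
  · calc r ^ 2 / |A.det| ^ ((2 : ℝ) / n) ≤ minSq A / |A.det| ^ ((2 : ℝ) / n) := by gcongr
      _ ≤ hermite n := hh
      _ ≤ _ := le_mul_of_one_le_left hh0 h1
  · set t : ℝ := r ^ 2 / minSq A with ht
    have ht1 : 1 < t := by rw [ht, lt_div_iff₀ hmin, one_mul]; exact hgt
    have hrt : r ^ 2 = t * minSq A := by rw [ht]; field_simp
    have h2 := sub_ineq hn hA ht1
    rw [short_eq A hrt] at h2
    have h3 : (shortCount A r : ℝ) ≤ max 1 μ := by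
      have := h r hr le_rfl
      rw [div_self hr.ne', one_pow, mul_one] at this
      exact this.trans (le_max_right _ _)
    calc r ^ 2 / |A.det| ^ ((2 : ℝ) / n) = t * gam A := by
          rw [gam, hrt, mul_div_assoc]
      _ ≤ (shortCount A r : ℝ) ^ ((2 : ℝ) / n) * hermite n := h2
      _ ≤ _ := by
          refine mul_le_mul_of_nonneg_right ?_ hh0
          exact Real.rpow_le_rpow (Nat.cast_nonneg _) h3 (by positivity)

theorem bddAbove_rel (hn : 0 < n) (μ : ℝ) : BddAbove {x : ℝ | ∃ (A : Matrix (Fin n) (Fin n) ℝ)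
    (r : ℝ), A.det ≠ 0 ∧ 0 < r ∧ Relaxed μ r A ∧ x = r ^ 2 / |A.det| ^ ((2 : ℝ) / n)} := by
  refine ⟨(max 1 μ) ^ ((2 : ℝ) / n) * hermite n, ?_⟩
  rintro x ⟨A, r, hA, hr, h, rfl⟩
  exact value_le_of_relaxed hn hA hr h

theorem le_relHermite (hn : 0 < n) {μ r : ℝ} {A : Matrix (Fin n) (Fin n) ℝ} (hA : A.det ≠ 0)
    (hr : 0 < r) (h : Relaxed μ r A) : r ^ 2 / |A.det| ^ ((2 : ℝ) / n) ≤ relHermite n μ :=
  le_csSup (bddAbove_rel hn μ) ⟨A, r, hA, hr, h, rfl⟩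

theorem relaxed_min (hn : 0 < n) {A : Matrix (Fin n) (Fin n) ℝ} (hA : A.det ≠ 0) {μ : ℝ}
    (hμ : 0 ≤ μ) : Relaxed μ (√(minSq A)) A := by
  intro s hs hs'
  have hmin := minSq_pos hn hA
  have h1 : s ^ 2 ≤ minSq A := by
    calc s ^ 2 ≤ (√(minSq A)) ^ 2 := pow_le_pow_left₀ hs.le hs' 2
      _ = minSq A := Real.sq_sqrt hmin.le
  rw [shortCount_eq_zero hs.le h1]
  have : 0 < √(minSq A) := Real.sqrt_pos.2 hmin
  simp only [Nat.cast_zero]
  positivity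

theorem relHermite_nonempty (hn : 0 < n) {μ : ℝ} (hμ : 0 ≤ μ) :
    {x : ℝ | ∃ (A : Matrix (Fin n) (Fin n) ℝ)
    (r : ℝ), A.det ≠ 0 ∧ 0 < r ∧ Relaxed μ r A ∧ x = r ^ 2 / |A.det| ^ ((2 : ℝ) / n)}.Nonempty := by
  have hA : (1 : Matrix (Fin n) (Fin n) ℝ).det ≠ 0 := by simp
  exact ⟨_, 1, √(minSq (1 : Matrix (Fin n) (Fin n) ℝ)), hA, Real.sqrt_pos.2 (minSq_pos hn hA),
    relaxed_min hn hA hμ, rfl⟩

theorem relHermite_le (hn : 0 < n) {μ : ℝ} (hμ : 0 ≤ μ) {c : ℝ}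
    (h : ∀ (A : Matrix (Fin n) (Fin n) ℝ) (r : ℝ), A.det ≠ 0 → 0 < r → Relaxed μ r A →
      r ^ 2 / |A.det| ^ ((2 : ℝ) / n) ≤ c) : relHermite n μ ≤ c := by
  refine csSup_le (relHermite_nonempty hn hμ) ?_
  rintro x ⟨A, r, hA, hr, hR, rfl⟩
  exact h A r hA hr hR

theorem hermite_le_relHermite (hn : 0 < n) {μ : ℝ} (hμ : 0 ≤ μ) : hermite n ≤ relHermite n μ := by
  have : Nonempty {A : Matrix (Fin n) (Fin n) ℝ // A.det ≠ 0} := ⟨⟨1, by simp⟩⟩
  refine ciSup_le fun A => ?_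
  have h := le_relHermite hn A.2 (Real.sqrt_pos.2 (minSq_pos hn A.2)) (relaxed_min hn A.2 hμ)
  rwa [Real.sq_sqrt (minSq_pos hn A.2).le] at h

theorem relHermite_le_hermite (hn : 0 < n) {μ : ℝ} (hμ : 0 ≤ μ) :
    relHermite n μ ≤ (max 1 μ) ^ ((2 : ℝ) / n) * hermite n :=
  relHermite_le hn hμ fun _ _ hA hr h => value_le_of_relaxed hn hA hr h

/-! ### Sublattices of prime index -/

theorem modVec_inj (k p : ℕ) (hp : p ≠ 0) (a : Fin k → ℕ) :
    Function.Injective (modVec k p a) := by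
  intro w w' h
  have hl : ∀ j : Fin k, w (Fin.castAdd 1 j) = w' (Fin.castAdd 1 j) := by
    intro j
    have h1 := congrFun h (Fin.castAdd 1 j)
    rw [modVec, modVec, Fin.addCases_left, Fin.addCases_left] at h1
    exact h1
  ext i
  refine Fin.addCases (m := k) (n := 1) (motive := fun i => w i = w' i)
    (fun j => hl j) (fun j => ?_) i
  have hj : j = 0 := Subsingleton.elim _ _
  subst hj
  have h1 := congrFun h (Fin.natAdd k (0 : Fin 1))
  rw [modVec, modVec, Fin.addCases_right, Fin.addCases_right] at h1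
  simp only [hl, add_right_inj] at h1
  exact mul_left_cancel₀ (by exact_mod_cast hp) h1

/-- short vectors of the sublattice -/
theorem shortCount_modMat (k p : ℕ) [hp : Fact p.Prime] {A : Matrix (Fin (k + 1)) (Fin (k + 1)) ℝ}
    (hA : A.det ≠ 0) (a : Fin k → ZMod p) (s : ℝ) :
    shortCount (A * modMat k p (fun j => (a j).val)) s ≤
      {x : Fin (k + 1) → ℤ | (x ≠ 0 ∧ nsq A x < s ^ 2) ∧ a ∈ solSet k p x}.ncard := by
  rw [shortCount_eq]
  refine Set.ncard_le_ncard_of_injOn (modVec k p (fun j => (a j).val)) ?_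
    (modVec_inj k p hp.out.ne_zero _).injOn ?_
  · rintro w ⟨hw, h⟩
    refine ⟨⟨modVec_ne k p hp.out.ne_zero _ hw, ?_⟩, modVec_mem k p a w⟩
    rwa [← nsq_mul_modMat]
  · exact (short_set_finite hA s).subset fun x hx => hx.1

/-- the multiples of `p` -/
theorem card_multiples {k p : ℕ} (hp : 0 < p) {A : Matrix (Fin (k + 1)) (Fin (k + 1)) ℝ}
    (hA : A.det ≠ 0) (s : ℝ) :
    {x : Fin (k + 1) → ℤ | (x ≠ 0 ∧ nsq A x < s ^ 2) ∧ ∀ i, (x i : ZMod p) = 0}.ncard ≤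
      shortCount A (s / p) := by
  rw [shortCount_eq]
  have hp' : (0 : ℝ) < p := by exact_mod_cast hp
  have hsub : {x : Fin (k + 1) → ℤ | (x ≠ 0 ∧ nsq A x < s ^ 2) ∧ ∀ i, (x i : ZMod p) = 0} ⊆
      (fun y : Fin (k + 1) → ℤ => (p : ℤ) • y) ''
        {w : Fin (k + 1) → ℤ | w ≠ 0 ∧ nsq A w < (s / p) ^ 2} := by
    rintro x ⟨⟨hx0, hx⟩, hd⟩
    have hd' : ∀ i, (p : ℤ) ∣ x i := fun i => (ZMod.intCast_zmod_eq_zero_iff_dvd _ _).1 (hd i)
    choose y hy using hd'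
    have hxy : x = (p : ℤ) • y := by
      ext i
      rw [hy i]
      simp
    refine ⟨y, ⟨?_, ?_⟩, hxy.symm⟩
    · rintro rfl
      exact hx0 (by rw [hxy]; simp)
    · rw [hxy, nsq_smul] at hx
      rw [div_pow, lt_div_iff₀ (by positivity), mul_comm]
      exact_mod_cast hx
  refine (Set.ncard_le_ncard hsub ((short_set_finite hA _).image _)).trans ?_
  exact Set.ncard_image_le (short_set_finite hA _)

end Pool.Agent.H779.LT
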