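import Mathlib
import Pool.Agent.H779.LT.Count

/-!
Thinning: sublattices of prime index with few short vectors at all scales.
-/

set_option autoImplicit false

open Matrix Finset

namespace Pool.Agent.H779.LT

open Pool.Agent.H160R3.Herm Pool.Agent.TH220.HG

/-- averaging over the sublattices of index `p` -/
theorem exists_light (k p : ℕ) [hp : Fact p.Prime] (F : Finset (Fin (k + 1) → ℤ))
    (f : (Fin (k + 1) → ℤ) → ℝ) (hf : ∀ x ∈ F, 0 ≤ f x)
    (h0 : ∀ x ∈ F, ∃ i, (x i : ZMod p) ≠ 0) :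
    ∃ a : Fin k → ZMod p, (∑ x ∈ F with a ∈ solSet k p x, f x) * p ≤ ∑ x ∈ F, f x := by
  classical
  have hcard : (univ : Finset (Fin k → ZMod p)).card = p ^ k := by
    rw [Finset.card_univ, Fintype.card_pi_const, ZMod.card]
  have hp0 : (0 : ℝ) < p := by exact_mod_cast hp.out.pos
  by_contra hcon
  push Not at hcon
  have h1 : ∑ a : Fin k → ZMod p, (∑ x ∈ F with a ∈ solSet k p x, f x) =
      ∑ x ∈ F, f x * (solSet k p x).card := by
    simp only [Finset.sum_filter]
    rw [Finset.sum_comm]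
    refine Finset.sum_congr rfl fun x _ => ?_
    rw [← Finset.sum_filter, Finset.sum_const, nsmul_eq_mul, mul_comm]
    congr 2
    congr 1
    ext a
    simp
  have h2 : ∑ x ∈ F, f x * (solSet k p x).card ≤ (∑ x ∈ F, f x) * (p ^ k / p) := by
    rw [Finset.sum_mul]
    refine Finset.sum_le_sum fun x hx => mul_le_mul_of_nonneg_left ?_ (hf x hx)
    rw [le_div_iff₀ hp0]
    exact_mod_cast card_sol k p x (h0 x hx)
  have h3 : ∑ _a : Fin k → ZMod p, (∑ x ∈ F, f x) / p <
      ∑ a : Fin k → ZMod p, (∑ x ∈ F with a ∈ solSet k p x, f x) := by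
    refine Finset.sum_lt_sum_of_nonempty univ_nonempty fun a _ => ?_
    rw [div_lt_iff₀ hp0]
    exact hcon a
  rw [Finset.sum_const, hcard, nsmul_eq_mul, h1] at h3
  have h4 := h3.trans_le h2
  push_cast at h4
  have h5 : (p : ℝ) ^ k * ((∑ x ∈ F, f x) / p) = (∑ x ∈ F, f x) * (p ^ k / p) := by ring
  linarith

/-- The scale `r 2 ^ (-j/n)`. -/
noncomputable def sc (r : ℝ) (n j : ℕ) : ℝ := r * 2 ^ (-((j : ℝ) / n))

theorem sc_pos {r : ℝ} (hr : 0 < r) (n j : ℕ) : 0 < sc r n j := by unfold sc; positivity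

theorem sc_div_pow {r : ℝ} (hr : 0 < r) {n : ℕ} (hn : 0 < n) (j : ℕ) :
    (sc r n j / r) ^ n = (1 / 2) ^ j := by
  have hn' : (n : ℝ) ≠ 0 := by exact_mod_cast hn.ne'
  rw [sc, mul_div_cancel_left₀ _ hr.ne', ← Real.rpow_natCast, ← Real.rpow_mul (by norm_num)]
  rw [show -((j : ℝ) / n) * n = -(j : ℝ) by field_simp, Real.rpow_neg (by norm_num),
    Real.rpow_natCast, one_div, inv_pow]

theorem sc_anti {r : ℝ} (hr : 0 < r) {n : ℕ} {i j : ℕ} (h : i ≤ j) : sc r n j ≤ sc r n i := by
  unfold sc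
  refine mul_le_mul_of_nonneg_left ?_ hr.le
  refine Real.rpow_le_rpow_of_exponent_le (by norm_num) ?_
  have : (i : ℝ) / n ≤ j / n := by gcongr
  linarith

theorem sc_zero (r : ℝ) (n : ℕ) : sc r n 0 = r := by simp [sc]

/-- **Thinning.** -/
theorem thin {n : ℕ} (hn : 0 < n) {A : Matrix (Fin n) (Fin n) ℝ} (hA : A.det ≠ 0) {r μ μ' : ℝ}
    (hr : 0 < r) (hμ : 0 < μ) (hμ' : 0 ≤ μ') (J p : ℕ) (hp : p.Prime) (hJ : μ < 2 ^ (J + 1))
    (hp2 : 2 * ((J : ℝ) + 2) * μ' ≤ p * μ)
    (h1 : ∀ j ≤ J, (shortCount A (sc r n j) : ℝ) ≤ μ' * (1 / 2) ^ j)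
    (h2 : ∀ j ≤ J, (shortCount A (sc r n j / p) : ℝ) ≤ μ' * (1 / 2) ^ j / p) :
    ∃ B : Matrix (Fin n) (Fin n) ℝ, B.det = A.det * p ∧ Relaxed μ r B := by
  classical
  obtain ⟨k, rfl⟩ : ∃ k, n = k + 1 := ⟨n - 1, by omega⟩
  have : Fact p.Prime := ⟨hp⟩
  have hp0 : (0 : ℝ) < p := by exact_mod_cast hp.pos
  -- the short vectors which are not multiples of `p`
  have hfin := short_set_finite hA r
  set F : Finset (Fin (k + 1) → ℤ) := hfin.toFinset.filter (fun x => ∃ i, (x i : ZMod p) ≠ 0)
    with hF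
  have hmem : ∀ x, x ∈ F ↔ (x ≠ 0 ∧ nsq A x < r ^ 2) ∧ ∃ i, (x i : ZMod p) ≠ 0 := by
    intro x
    rw [hF, Finset.mem_filter, Set.Finite.mem_toFinset]
    rfl
  set f : (Fin (k + 1) → ℤ) → ℝ := fun x =>
    ∑ j ∈ range (J + 1), if nsq A x < (sc r (k + 1) j) ^ 2 then (2 : ℝ) ^ j else 0 with hf
  have hf0 : ∀ x, 0 ≤ f x := fun x => Finset.sum_nonneg fun j _ => by split_ifs <;> positivity
  obtain ⟨a, ha⟩ := exists_light k p F f (fun x _ => hf0 x) (fun x hx => ((hmem x).1 hx).2)
  -- the total weight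
  have htot : ∑ x ∈ F, f x ≤ (J + 1) * μ' := by
    rw [hf, Finset.sum_comm]
    calc ∑ j ∈ range (J + 1), ∑ x ∈ F, (if nsq A x < (sc r (k + 1) j) ^ 2 then (2 : ℝ) ^ j else 0)
        ≤ ∑ j ∈ range (J + 1), μ' := by
          refine Finset.sum_le_sum fun j hj => ?_
          have hj' : j ≤ J := by rw [Finset.mem_range] at hj; omega
          rw [← Finset.sum_filter, Finset.sum_const, nsmul_eq_mul]
          have hc : ((F.filter fun x => nsq A x < (sc r (k + 1) j) ^ 2).card : ℝ) ≤
              shortCount A (sc r (k + 1) j) := by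
            rw [shortCount_eq]
            norm_cast
            rw [← Set.ncard_coe_finset]
            refine Set.ncard_le_ncard ?_ (short_set_finite hA _)
            intro x hx
            rw [Finset.mem_coe, Finset.mem_filter, hmem] at hx
            exact ⟨hx.1.1.1, hx.2⟩
          calc ((F.filter fun x => nsq A x < (sc r (k + 1) j) ^ 2).card : ℝ) * 2 ^ j
              ≤ (μ' * (1 / 2) ^ j) * 2 ^ j :=
                mul_le_mul_of_nonneg_right (hc.trans (h1 j hj')) (by positivity)
            _ = μ' := by rw [mul_assoc, ← mul_pow]; norm_num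
      _ = (J + 1) * μ' := by simp
  set B := A * modMat k p (fun j => (a j).val) with hB
  have hdet : B.det = A.det * p := by rw [hB, Matrix.det_mul, det_modMat]
  have hdet0 : B.det ≠ 0 := by rw [hdet]; exact mul_ne_zero hA hp0.ne'
  -- the counts at the scales
  have key : ∀ j ≤ J, (shortCount B (sc r (k + 1) j) : ℝ) ≤ μ / 2 * (1 / 2) ^ j := by
    intro j hj
    have e1 : (shortCount B (sc r (k + 1) j) : ℝ) ≤
        ((F.filter fun x => a ∈ solSet k p x).filter fun x => nsq A x < (sc r (k + 1) j) ^ 2).card +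
          shortCount A (sc r (k + 1) j / p) := by
      have e2 := shortCount_modMat k p hA a (sc r (k + 1) j)
      have e3 : {x : Fin (k + 1) → ℤ | (x ≠ 0 ∧ nsq A x < (sc r (k + 1) j) ^ 2) ∧
          a ∈ solSet k p x} ⊆
          (((F.filter fun x => a ∈ solSet k p x).filter fun x => nsq A x < (sc r (k + 1) j) ^ 2 :
            Finset (Fin (k + 1) → ℤ)) : Set (Fin (k + 1) → ℤ)) ∪
          {x : Fin (k + 1) → ℤ | (x ≠ 0 ∧ nsq A x < (sc r (k + 1) j) ^ 2) ∧
            ∀ i, (x i : ZMod p) = 0} := by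
        rintro x ⟨⟨hx0, hx⟩, hxa⟩
        by_cases hd : ∀ i, (x i : ZMod p) = 0
        · exact Or.inr ⟨⟨hx0, hx⟩, hd⟩
        · left
          push Not at hd
          rw [Finset.mem_coe, Finset.mem_filter, Finset.mem_filter, hmem]
          refine ⟨⟨⟨⟨hx0, hx.trans_le ?_⟩, hd⟩, hxa⟩, hx⟩
          have h5 : sc r (k + 1) j ≤ r := by
            have := sc_anti hr (n := k + 1) (Nat.zero_le j)
            rwa [sc_zero] at this
          exact pow_le_pow_left₀ (sc_pos hr (k + 1) j).le h5 2
      have e4 := Set.ncard_le_ncard e3 ((Finset.finite_toSet _).union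
        ((short_set_finite hA (sc r (k + 1) j)).subset fun x hx => hx.1))
      have e5 := e2.trans (e4.trans (Set.ncard_union_le _ _))
      rw [Set.ncard_coe_finset] at e5
      have e6 := card_multiples hp.pos hA (sc r (k + 1) j)
      exact_mod_cast e5.trans (Nat.add_le_add_left e6 _)
    have e7 : (((F.filter fun x => a ∈ solSet k p x).filter
        fun x => nsq A x < (sc r (k + 1) j) ^ 2).card : ℝ) * 2 ^ j ≤ (J + 1) * μ' / p := by
      rw [le_div_iff₀ hp0]
      refine le_trans ?_ (ha.trans htot)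
      refine mul_le_mul_of_nonneg_right ?_ hp0.le
      calc (((F.filter fun x => a ∈ solSet k p x).filter
            fun x => nsq A x < (sc r (k + 1) j) ^ 2).card : ℝ) * 2 ^ j
          = ∑ x ∈ F with a ∈ solSet k p x,
              (if nsq A x < (sc r (k + 1) j) ^ 2 then (2 : ℝ) ^ j else 0) := by
            rw [← Finset.sum_filter, Finset.sum_const, nsmul_eq_mul]
        _ ≤ ∑ x ∈ F with a ∈ solSet k p x, f x := by
            refine Finset.sum_le_sum fun x _ => ?_
            rw [hf]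
            exact Finset.single_le_sum
              (f := fun j => if nsq A x < (sc r (k + 1) j) ^ 2 then (2 : ℝ) ^ j else 0)
              (fun i _ => by split_ifs <;> positivity) (Finset.mem_range.2 (by omega))
    have e8 : (((F.filter fun x => a ∈ solSet k p x).filter
        fun x => nsq A x < (sc r (k + 1) j) ^ 2).card : ℝ) ≤ (J + 1) * μ' / p * (1 / 2) ^ j := by
      have h2j : (0 : ℝ) < 2 ^ j := by positivity
      have : (1 / 2 : ℝ) ^ j = 1 / 2 ^ j := by rw [_root_.one_div_pow]
      rw [this, mul_one_div, le_div_iff₀ h2j]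
      exact e7
    calc (shortCount B (sc r (k + 1) j) : ℝ) ≤ (J + 1) * μ' / p * (1 / 2) ^ j +
          μ' * (1 / 2) ^ j / p := e1.trans (add_le_add e8 (h2 j hj))
      _ = ((J : ℝ) + 2) * μ' / p * (1 / 2) ^ j := by ring
      _ ≤ μ / 2 * (1 / 2) ^ j := by
          refine mul_le_mul_of_nonneg_right ?_ (by positivity)
          rw [div_le_iff₀ hp0]
          linarith
  refine ⟨B, hdet, fun s hs hsr => ?_⟩
  have hq0 : 0 < s / r := by positivity
  rcases le_or_gt s (sc r (k + 1) J) with hle | hgt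
  · -- no short vectors
    have h3 : (shortCount B (sc r (k + 1) J) : ℝ) < 1 := by
      refine (key J le_rfl).trans_lt ?_
      have : (1 / 2 : ℝ) ^ J = 1 / 2 ^ J := by rw [_root_.one_div_pow]
      rw [this, mul_one_div, div_div, div_lt_one (by positivity)]
      calc μ < 2 ^ (J + 1) := hJ
        _ = 2 * 2 ^ J := by ring
    have h4 : shortCount B (sc r (k + 1) J) = 0 := by
      have : shortCount B (sc r (k + 1) J) < 1 := by exact_mod_cast h3
      omega
    have h5 : shortCount B s = 0 := by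
      have := shortCount_mono hdet0 hs.le hle
      omega
    rw [h5]
    simp only [Nat.cast_zero]
    positivity
  · -- the last scale above `s`
    obtain ⟨j, hj, hj1, hj2⟩ : ∃ j, j < J ∧ s ≤ sc r (k + 1) j ∧ sc r (k + 1) (j + 1) < s := by
      have hex : ∃ j, sc r (k + 1) j < s := ⟨J, hgt⟩
      have hspec := Nat.find_spec hex
      have hle : Nat.find hex ≤ J := Nat.find_min' hex hgt
      have hpos : Nat.find hex ≠ 0 := by
        intro h
        rw [h, sc_zero] at hspec
        linarith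
      refine ⟨Nat.find hex - 1, by omega, ?_, ?_⟩
      · have := Nat.find_min hex (show Nat.find hex - 1 < Nat.find hex by omega)
        exact not_lt.1 this
      · rwa [show Nat.find hex - 1 + 1 = Nat.find hex by omega]
    calc (shortCount B s : ℝ) ≤ shortCount B (sc r (k + 1) j) := by
          exact_mod_cast shortCount_mono hdet0 hs.le hj1
      _ ≤ μ / 2 * (1 / 2) ^ j := key j hj.le
      _ = μ * (1 / 2) ^ (j + 1) := by ring
      _ = μ * (sc r (k + 1) (j + 1) / r) ^ (k + 1) := by rw [sc_div_pow hr hn]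
      _ ≤ μ * (s / r) ^ (k + 1) := by
          refine mul_le_mul_of_nonneg_left ?_ hμ.le
          refine pow_le_pow_left₀ ?_ ?_ (k + 1)
          · have := sc_pos hr (k + 1) (j + 1)
            positivity
          · gcongr

end Pool.Agent.H779.LT
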