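import Mathlib
import Pool.Agent.H779.LT.Thin
import Pool.Graph.R_seed8.H390R2.LP.Hermite

/-!
Thinning inequality and lower bound for the relaxed Hermite constants.
-/

set_option autoImplicit false

open Finset MeasureTheory Filter Topology

namespace Pool.Agent.H779.LT

open Pool.Agent.H160R3.Herm Pool.Agent.TH220.HG

variable {n : ℕ}

/-- the number of scales -/
theorem exists_scales {μ : ℝ} (hμ : 1 ≤ μ) : ∃ J : ℕ, μ < 2 ^ (J + 1) ∧ (J : ℝ) ≤ Real.logb 2 μ := by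
  refine ⟨Nat.log 2 ⌊μ⌋₊, ?_, ?_⟩
  · have h1 : ⌊μ⌋₊ < 2 ^ (Nat.log 2 ⌊μ⌋₊ + 1) := Nat.lt_pow_succ_log_self (by norm_num) _
    have h2 : ⌊μ⌋₊ + 1 ≤ 2 ^ (Nat.log 2 ⌊μ⌋₊ + 1) := h1
    calc μ < ⌊μ⌋₊ + 1 := Nat.lt_floor_add_one μ
      _ ≤ 2 ^ (Nat.log 2 ⌊μ⌋₊ + 1) := by exact_mod_cast h2
  · have h1 : ⌊μ⌋₊ ≠ 0 := by
      have : 1 ≤ ⌊μ⌋₊ := Nat.one_le_floor_iff μ |>.2 hμ
      omega
    have h2 : 2 ^ Nat.log 2 ⌊μ⌋₊ ≤ ⌊μ⌋₊ := Nat.pow_log_le_self 2 h1
    rw [Real.le_logb_iff_rpow_le (by norm_num) (by linarith), Real.rpow_natCast]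
    calc (2 : ℝ) ^ Nat.log 2 ⌊μ⌋₊ ≤ (⌊μ⌋₊ : ℝ) := by exact_mod_cast h2
      _ ≤ μ := Nat.floor_le (by linarith)

theorem value_mul_prime {A B : Matrix (Fin n) (Fin n) ℝ} {p : ℕ} (hp : 0 < p)
    (hA : A.det ≠ 0) (hB : B.det = A.det * p) (r : ℝ) :
    r ^ 2 / |A.det| ^ ((2 : ℝ) / n) = (p : ℝ) ^ ((2 : ℝ) / n) * (r ^ 2 / |B.det| ^ ((2 : ℝ) / n)) := by
  have hp0 : (0 : ℝ) < p := by exact_mod_cast hp
  have hdA : 0 < |A.det| := abs_pos.2 hA
  rw [hB, abs_mul, abs_of_pos hp0, Real.mul_rpow hdA.le hp0.le]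
  have : (0 : ℝ) < (p : ℝ) ^ ((2 : ℝ) / n) := by positivity
  have : (0 : ℝ) < |A.det| ^ ((2 : ℝ) / n) := by positivity
  field_simp

/-- **The thinning inequality.** -/
theorem rel_thin (hn : 0 < n) {μ μ' : ℝ} (hμ : 1 ≤ μ) (hμμ : μ ≤ μ') :
    relHermite n μ' ≤ (5 * (Real.logb 2 μ + 2) * (μ' / μ)) ^ ((2 : ℝ) / n) * relHermite n μ := by
  have hμ0 : 0 < μ := by linarith
  have hμ'0 : 0 < μ' := by linarith
  have hn' : (0 : ℝ) < n := by exact_mod_cast hn
  refine relHermite_le hn hμ'0.le fun A r hA hr hR => ?_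
  obtain ⟨J, hJ1, hJ2⟩ := exists_scales hμ
  have hQ0 : 0 < 2 * ((J : ℝ) + 2) * μ' / μ := by positivity
  obtain ⟨p, hp, hp1, hp2⟩ := Nat.exists_prime_lt_and_le_two_mul ⌈2 * ((J : ℝ) + 2) * μ' / μ⌉₊
    (Nat.ceil_pos.2 hQ0).ne'
  have hp0 : (0 : ℝ) < p := by exact_mod_cast hp.pos
  have hp1' : (1 : ℝ) ≤ p := by exact_mod_cast hp.one_lt.le
  obtain ⟨B, hB, hBR⟩ := thin hn hA hr hμ0 hμ'0.le J p hp hJ1
    (by
      have h1 : 2 * ((J : ℝ) + 2) * μ' / μ ≤ p :=
        (Nat.le_ceil _).trans (by exact_mod_cast hp1.le)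
      rwa [div_le_iff₀ hμ0] at h1)
    (fun j _ => by
      have h1 : sc r n j ≤ r := by
        have := sc_anti hr (n := n) (Nat.zero_le j)
        rwa [sc_zero] at this
      have := hR (sc r n j) (sc_pos hr n j) h1
      rwa [sc_div_pow hr hn] at this)
    (fun j _ => by
      have h1 : sc r n j ≤ r := by
        have := sc_anti hr (n := n) (Nat.zero_le j)
        rwa [sc_zero] at this
      have h0 := sc_pos hr n j
      have h2 : sc r n j / p ≤ r := (div_le_self h0.le hp1').trans h1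
      refine (hR (sc r n j / p) (by positivity) h2).trans ?_
      rw [div_right_comm, div_pow, sc_div_pow hr hn, ← mul_div_assoc]
      refine div_le_div_of_nonneg_left (by positivity) hp0 ?_
      exact le_self_pow₀ hp1' hn.ne')
  have hBdet : B.det ≠ 0 := by rw [hB]; exact mul_ne_zero hA hp0.ne'
  rw [value_mul_prime hp.pos hA hB r]
  have hL0 := Real.logb_nonneg (b := 2) (by norm_num) hμ
  refine mul_le_mul ?_ (le_relHermite hn hBdet hr hBR) (by positivity) (by positivity)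
  refine Real.rpow_le_rpow hp0.le ?_ (by positivity)
  have h3 : (p : ℝ) ≤ 2 * (2 * ((J : ℝ) + 2) * μ' / μ + 1) := by
    calc (p : ℝ) ≤ 2 * (⌈2 * ((J : ℝ) + 2) * μ' / μ⌉₊ : ℝ) := by exact_mod_cast hp2
      _ ≤ _ := by
          have := (Nat.ceil_lt_add_one hQ0.le).le
          linarith
  have h4 : (1 : ℝ) ≤ μ' / μ := by rwa [one_le_div hμ0]
  have hJ0 : (0 : ℝ) ≤ J := Nat.cast_nonneg J
  have h5 : (J + 2) * (μ' / μ) ≤ (Real.logb 2 μ + 2) * (μ' / μ) :=
    mul_le_mul_of_nonneg_right (by linarith) (by positivity)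
  have h6 : 2 ≤ (J + 2) * (μ' / μ) := by nlinarith
  have h7 : 2 * ((J : ℝ) + 2) * μ' / μ = 2 * ((J + 2) * (μ' / μ)) := by ring
  rw [h7] at h3
  calc (p : ℝ) ≤ 2 * (2 * ((J + 2) * (μ' / μ)) + 1) := h3
    _ ≤ 5 * ((J + 2) * (μ' / μ)) := by linarith
    _ ≤ 5 * ((Real.logb 2 μ + 2) * (μ' / μ)) := by linarith
    _ = _ := by ring

/-- integer points in balls -/
theorem shortCount_one_le (n : ℕ) {s : ℝ} (hs : 0 ≤ s) :
    (shortCount (1 : Matrix (Fin n) (Fin n) ℝ) s : ℝ) ≤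
      volume.real (Metric.ball (0 : EuclideanSpace ℝ (Fin n)) 1) * (s + √n + 1) ^ n := by
  classical
  have hA : (1 : Matrix (Fin n) (Fin n) ℝ).det ≠ 0 := by simp
  have hfin := short_set_finite hA s
  have h1 := Pool.Agent.H390R2.LP.card_int_le hfin.toFinset s (s + √n + 1) (by linarith)
    (fun v hv => by
      rw [Set.Finite.mem_toFinset] at hv
      have h2 : ‖Pool.Agent.H390R2.LP.toE v‖ ^ 2 = nsq (1 : Matrix (Fin n) (Fin n) ℝ) v := by
        unfold nsq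
        rw [Matrix.one_mulVec, EuclideanSpace.norm_sq_eq]
        refine Finset.sum_congr rfl fun i _ => ?_
        simp [Pool.Agent.H390R2.LP.toE]
      have h3 : ‖Pool.Agent.H390R2.LP.toE v‖ ^ 2 ≤ s ^ 2 := by rw [h2]; exact hv.2.le
      exact le_of_sq_le_sq h3 hs)
  have h0 : (0 : ℝ) < s + √n + 1 := by positivity
  rw [Measure.addHaar_ball_of_pos _ _ h0] at h1
  have hb : volume (Metric.ball (0 : EuclideanSpace ℝ (Fin n)) 1) ≠ ⊤ := measure_ball_lt_top.ne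
  have h4 := ENNReal.toReal_mono (ENNReal.mul_ne_top ENNReal.ofReal_ne_top hb) h1
  rw [ENNReal.toReal_mul, ENNReal.toReal_ofReal (by positivity), finrank_euclideanSpace_fin,
    ENNReal.toReal_natCast] at h4
  rw [shortCount_eq, Set.ncard_eq_toFinset_card _ hfin, mul_comm]
  exact h4

/-- **The lower bound** (averaging over all lattices). -/
theorem rel_lower (hn : 2 ≤ n) {μ : ℝ} (hμ : 1 ≤ μ) :
    (μ / (10 * (Real.logb 2 μ + 2) *
      volume.real (Metric.ball (0 : EuclideanSpace ℝ (Fin n)) 1))) ^ ((2 : ℝ) / n) ≤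
      relHermite n μ := by
  have hn0 : 0 < n := by omega
  have hμ0 : 0 < μ := by linarith
  have : Nonempty (Fin n) := ⟨⟨0, hn0⟩⟩
  set v : ℝ := volume.real (Metric.ball (0 : EuclideanSpace ℝ (Fin n)) 1) with hv
  have hv0 : 0 < v := by
    rw [hv, measureReal_def]
    exact ENNReal.toReal_pos (Metric.measure_ball_pos volume _ one_pos).ne'
      measure_ball_lt_top.ne
  obtain ⟨J, hJ1, hJ2⟩ := exists_scales hμ
  have hA : (1 : Matrix (Fin n) (Fin n) ℝ).det ≠ 0 := by simp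
  have hJ0 : (0 : ℝ) ≤ J := Nat.cast_nonneg J
  -- a large radius
  have e1 : ∀ᶠ s : ℝ in atTop, (s + √n + 1) ^ n ≤ 2 * s ^ n := by
    have h1 : Tendsto (fun s : ℝ => (1 + (√n + 1) * s⁻¹) ^ n) atTop
        (𝓝 ((1 + (√n + 1) * 0) ^ n)) :=
      ((tendsto_inv_atTop_zero.const_mul _).const_add 1).pow n
    rw [mul_zero, add_zero, one_pow] at h1
    filter_upwards [h1.eventually_le_const (show (1 : ℝ) < 2 by norm_num), eventually_gt_atTop 0]
      with s hs hs0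
    have h2 : (s + √n + 1) ^ n = (1 + (√n + 1) * s⁻¹) ^ n * s ^ n := by
      rw [← mul_pow]
      congr 1
      field_simp
      ring
    rw [h2]
    exact mul_le_mul_of_nonneg_right hs (by positivity)
  obtain ⟨S, hS⟩ := eventually_atTop.1 e1
  have e2 : ∀ᶠ r : ℝ in atTop, max S 1 ≤ sc r n J := by
    unfold sc
    exact (tendsto_id.atTop_mul_const (by positivity)).eventually_ge_atTop _
  have e3 : ∀ᶠ r : ℝ in atTop, 1 ≤ (J + 2) * v / μ * r ^ (n - 1) := by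
    have : Tendsto (fun r : ℝ => (J + 2) * v / μ * r ^ (n - 1)) atTop atTop :=
      (tendsto_pow_atTop (by omega)).const_mul_atTop (by positivity)
    exact this.eventually_ge_atTop 1
  obtain ⟨r, hr1, hr2, hr3⟩ := (e2.and (e3.and (eventually_gt_atTop 1))).exists
  have hr0 : 0 < r := by linarith
  set μ' : ℝ := 2 * v * r ^ n with hμ'
  have hμ'0 : 0 < μ' := by positivity
  have hQ0 : 0 < 2 * ((J : ℝ) + 2) * μ' / μ := by positivity
  obtain ⟨p, hp, hp1, hp2⟩ := Nat.exists_prime_lt_and_le_two_mul ⌈2 * ((J : ℝ) + 2) * μ' / μ⌉₊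
    (Nat.ceil_pos.2 hQ0).ne'
  have hp0 : (0 : ℝ) < p := by exact_mod_cast hp.pos
  have hpQ : 2 * ((J : ℝ) + 2) * μ' / μ ≤ p := (Nat.le_ceil _).trans (by exact_mod_cast hp1.le)
  have hrp : r ≤ p := by
    refine le_trans ?_ hpQ
    have h1 : 2 * ((J : ℝ) + 2) * μ' / μ = (4 * ((J + 2) * v / μ * r ^ (n - 1))) * r := by
      rw [hμ', show r ^ n = r ^ (n - 1) * r by rw [← pow_succ]; congr 1; omega]
      ring
    rw [h1]
    exact le_mul_of_one_le_left hr0.le (by linarith)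
  obtain ⟨B, hB, hBR⟩ := thin hn0 hA hr0 hμ0 hμ'0.le J p hp hJ1
    (by rwa [div_le_iff₀ hμ0] at hpQ)
    (fun j hj => by
      have h0 := sc_pos hr0 n j
      have h1 : S ≤ sc r n j := ((le_max_left _ _).trans hr1).trans (sc_anti hr0 hj)
      refine (shortCount_one_le n h0.le).trans ?_
      refine (mul_le_mul_of_nonneg_left (hS _ h1) hv0.le).trans (le_of_eq ?_)
      have h2 := sc_div_pow hr0 hn0 j
      rw [div_pow, div_eq_iff (by positivity)] at h2
      rw [h2, hμ']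
      ring)
    (fun j hj => by
      have h0 := sc_pos hr0 n j
      have h1 : sc r n j ≤ r := by
        have := sc_anti hr0 (n := n) (Nat.zero_le j)
        rwa [sc_zero] at this
      have h2 : sc r n j / p ≤ 1 := by rw [div_le_one hp0]; exact h1.trans hrp
      rw [shortCount_eq_zero (by positivity)]
      · simp only [Nat.cast_zero]; positivity
      · have h3 : (sc r n j / p) ^ 2 ≤ 1 := pow_le_one₀ (by positivity) h2
        exact h3.trans (one_le_minSq_one hn0))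
  have hBdet : B.det ≠ 0 := by rw [hB]; exact mul_ne_zero hA hp0.ne'
  refine le_trans ?_ (le_relHermite hn0 hBdet hr0 hBR)
  rw [hB, Matrix.det_one, one_mul, abs_of_pos hp0]
  have h5 : (p : ℝ) ≤ 10 * (Real.logb 2 μ + 2) * v * r ^ n / μ := by
    have h3 : (p : ℝ) ≤ 2 * (2 * ((J : ℝ) + 2) * μ' / μ + 1) := by
      calc (p : ℝ) ≤ 2 * (⌈2 * ((J : ℝ) + 2) * μ' / μ⌉₊ : ℝ) := by exact_mod_cast hp2
        _ ≤ _ := by
            have := (Nat.ceil_lt_add_one hQ0.le).le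
            linarith
    have h4 : 2 ≤ 2 * ((J : ℝ) + 2) * v * r ^ n / μ := by
      have h6 : (J + 2) * v / μ * r ^ (n - 1) ≤ (J + 2) * v / μ * r ^ n :=
        mul_le_mul_of_nonneg_left (pow_le_pow_right₀ hr3.le (by omega)) (by positivity)
      have h7 : 2 * ((J : ℝ) + 2) * v * r ^ n / μ = 2 * ((J + 2) * v / μ * r ^ n) := by ring
      rw [h7]
      linarith
    have h8 : 2 * ((J : ℝ) + 2) * μ' / μ = 4 * ((J + 2) * v * r ^ n / μ) := by rw [hμ']; ring
    rw [h8] at h3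
    have h9 : (J + 2) * v * r ^ n / μ ≤ (Real.logb 2 μ + 2) * v * r ^ n / μ := by gcongr
    have h10 : 2 * ((J : ℝ) + 2) * v * r ^ n / μ = 2 * ((J + 2) * v * r ^ n / μ) := by ring
    rw [h10] at h4
    calc (p : ℝ) ≤ 2 * (4 * ((J + 2) * v * r ^ n / μ) + 1) := h3
      _ ≤ 10 * ((J + 2) * v * r ^ n / μ) := by linarith
      _ ≤ 10 * ((Real.logb 2 μ + 2) * v * r ^ n / μ) := by linarith
      _ = _ := by ring
  have hn' : (n : ℝ) ≠ 0 := by exact_mod_cast hn0.ne'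
  have h11 : r ^ 2 = (r ^ n) ^ ((2 : ℝ) / n) := by
    rw [← Real.rpow_natCast r n, ← Real.rpow_mul hr0.le, mul_div_cancel₀ _ hn',
      ← Real.rpow_natCast]
    norm_num
  rw [h11, ← Real.div_rpow (by positivity) hp0.le]
  refine Real.rpow_le_rpow ?_ ?_ (by positivity)
  · have := Real.logb_nonneg (b := 2) (by norm_num) hμ
    positivity
  · have hL := Real.logb_nonneg (b := 2) (by norm_num) hμ
    rw [div_le_div_iff₀ (by positivity) hp0]
    rw [le_div_iff₀ hμ0] at h5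
    linarith

end Pool.Agent.H779.LT
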