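import Mathlib
import Pool.Agent.H779.LT.Count
import Pool.Agent.H779.RB.Main
import Pool.Graph.R_seed8.H390R2.LP.Hermite

/-!
The robust linear programming bound for lattices.
-/

set_option autoImplicit false

open MeasureTheory Filter Topology Metric

open scoped ENNReal

namespace Pool.Agent.H779.LT

open Pool.Agent.H160R3.Herm Pool.Agent.TH220.HG Pool.Agent.H390R2.LP Pool.Agent.H779.RB

variable {n : ℕ}

/-- the lattice points (in coordinates) in the ball of radius `T` -/
theorem norm_sq_eq (A : Matrix (Fin n) (Fin n) ℝ) (v : Fin n → ℤ) :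
    ‖A.toLpLin 2 2 (toE v)‖ ^ 2 = nsq A v := norm_sq_toLpLin A v

theorem lin_inj {A : Matrix (Fin n) (Fin n) ℝ} (hA : A.det ≠ 0) :
    Function.Injective (A.toLpLin 2 2) := by
  have hdet : LinearMap.det (A.toLpLin 2 2) = A.det := LinearMap.det_toLpLin 2 A
  rw [← LinearMap.ker_eq_bot]
  by_contra hb
  exact hA (hdet ▸ (LinearMap.det_eq_zero_iff_ker_ne_bot.mpr hb))

theorem toE_inj : Function.Injective (toE : (Fin n → ℤ) → EuclideanSpace ℝ (Fin n)) := by
  intro v w h
  funext i
  have e2 := congrArg (fun z : EuclideanSpace ℝ (Fin n) => z i) h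
  have e3 : (v i : ℝ) = w i := e2
  exact_mod_cast e3

/-- the number of the lattice points in large balls -/
theorem card_ge (hn : 0 < n) {A : Matrix (Fin n) (Fin n) ℝ} (hA : A.det ≠ 0) :
    ∃ D : ℝ, 0 ≤ D ∧ ∀ T : ℝ, D < T → ∀ W : Finset (Fin n → ℤ), (∀ v, v ∈ W ↔ nsq A v < T ^ 2) →
      volume.real (ball (0 : EuclideanSpace ℝ (Fin n)) (T - D)) ≤ W.card * |A.det| := by
  classical
  have : Nonempty (Fin n) := ⟨⟨0, hn⟩⟩
  set f := A.toLpLin 2 2 with hf
  have hdet : LinearMap.det f = A.det := LinearMap.det_toLpLin 2 A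
  have hinj : Function.Injective f := lin_inj hA
  set g : EuclideanSpace ℝ (Fin n) →L[ℝ] EuclideanSpace ℝ (Fin n) := LinearMap.toContinuousLinearMap f
    with hg
  refine ⟨‖g‖ * √n, by positivity, fun T hT W hW => ?_⟩
  set D := ‖g‖ * √n with hD
  have hD0 : 0 ≤ D := by positivity
  have hcov : Metric.ball (0 : EuclideanSpace ℝ (Fin n)) (T - D) ⊆ ⋃ v ∈ W, f '' (cube v) := by
    intro y hy
    rw [mem_ball_zero_iff] at hy
    have hsurj : Function.Surjective f := LinearMap.surjective_of_injective hinj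
    obtain ⟨z, rfl⟩ := hsurj y
    have hz : z ∈ cube (fun i => ⌊z i⌋) := by
      rw [mem_cube]
      intro i
      exact ⟨Int.floor_le _, Int.lt_floor_add_one _⟩
    simp only [Set.mem_iUnion]
    refine ⟨_, ?_, z, hz, rfl⟩
    rw [hW, ← norm_sq_eq]
    have h1 : ‖f (toE fun i => ⌊z i⌋)‖ ≤ ‖f z‖ + ‖f (z - toE fun i => ⌊z i⌋)‖ := by
      have e : f (toE fun i => ⌊z i⌋) = f z - f (z - toE fun i => ⌊z i⌋) := by
        rw [map_sub]; abel
      rw [e]
      exact norm_sub_le _ _
    have h2 : ‖f (z - toE fun i => ⌊z i⌋)‖ ≤ D := by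
      calc _ = ‖g (z - toE fun i => ⌊z i⌋)‖ := rfl
        _ ≤ ‖g‖ * ‖z - toE fun i => ⌊z i⌋‖ := g.le_opNorm _
        _ ≤ D := mul_le_mul_of_nonneg_left (cube_sub_norm _ _ hz) (norm_nonneg _)
    have h3 : ‖f (toE fun i => ⌊z i⌋)‖ < T := by linarith
    exact pow_lt_pow_left₀ h3 (norm_nonneg _) two_ne_zero
  have hcard : volume (ball (0 : EuclideanSpace ℝ (Fin n)) (T - D)) ≤
      W.card * ENNReal.ofReal |A.det| := by
    calc _ ≤ volume (⋃ v ∈ W, f '' (cube v)) := measure_mono hcov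
      _ ≤ ∑ v ∈ W, volume (f '' (cube v)) := measure_biUnion_finset_le _ _
      _ = ∑ v ∈ W, ENNReal.ofReal |A.det| := by
          apply Finset.sum_congr rfl
          intro v _
          rw [Measure.addHaar_image_linearMap, hdet, cube_vol, mul_one]
      _ = _ := by rw [Finset.sum_const, nsmul_eq_mul]
  have h4 := ENNReal.toReal_mono (ENNReal.mul_ne_top (ENNReal.natCast_ne_top _)
    ENNReal.ofReal_ne_top) hcard
  rw [ENNReal.toReal_mul, ENNReal.toReal_ofReal (abs_nonneg _), ENNReal.toReal_natCast] at h4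
  exact h4

/-- near pairs of lattice points -/
theorem nearPairs_lattice {A : Matrix (Fin n) (Fin n) ℝ} (hA : A.det ≠ 0) (W : Finset (Fin n → ℤ))
    {s : ℝ} (hs : 0 < s) {P : Finset (EuclideanSpace ℝ (Fin n))}
    (hP : ∀ x ∈ P, ∃ v, A.toLpLin 2 2 (toE v) = x) :
    (nearPairs P s).card ≤ shortCount A s * P.card := by
  classical
  have h1 : nearPairs P s = P.biUnion fun x => (P.filter fun y => x ≠ y ∧ dist x y < s).image
      fun y => (x, y) := by
    ext ⟨x, y⟩
    unfold nearPairs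
    simp only [Finset.mem_filter, Finset.mem_product, Finset.mem_biUnion, Finset.mem_image,
      Prod.mk.injEq]
    constructor
    · rintro ⟨⟨hx, hy⟩, hne, hd⟩
      exact ⟨x, hx, y, ⟨hy, hne, hd⟩, rfl, rfl⟩
    · rintro ⟨a, ha, b, ⟨hb, hne, hd⟩, rfl, rfl⟩
      exact ⟨⟨ha, hb⟩, hne, hd⟩
  rw [h1, mul_comm, ← smul_eq_mul, ← Finset.sum_const]
  refine Finset.card_biUnion_le.trans (Finset.sum_le_sum fun x hx => ?_)
  refine Finset.card_image_le.trans ?_
  obtain ⟨v, rfl⟩ := hP x hx
  have h2 : ∀ y ∈ P.filter (fun y => A.toLpLin 2 2 (toE v) ≠ y ∧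
      dist (A.toLpLin 2 2 (toE v)) y < s), ∃ w : Fin n → ℤ, A.toLpLin 2 2 (toE w) = y :=
    fun y hy => hP y (Finset.mem_filter.1 hy).1
  choose! φ hφ using h2
  rw [shortCount_eq, ← Set.ncard_coe_finset]
  refine Set.ncard_le_ncard_of_injOn (fun y => φ y - v) ?_ ?_ (short_set_finite hA s)
  · intro y hy
    have hy' := Finset.mem_filter.1 hy
    have e := hφ y hy
    refine ⟨?_, ?_⟩
    · intro h
      rw [sub_eq_zero] at h
      apply hy'.2.1
      rw [← e, h]
    · rw [← norm_sq_eq, toE_sub, map_sub, e]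
      have h3 := hy'.2.2
      rw [dist_comm, dist_eq_norm] at h3
      exact pow_lt_pow_left₀ h3 (norm_nonneg _) two_ne_zero
  · intro y hy z hz h
    have h4 : φ y = φ z := by
      have := congrArg (fun u => u + v) h
      simpa using this
    rw [← hφ y hy, ← hφ z hz, h4]

/-- **The robust linear programming bound for lattices.** -/
theorem upper (ε : ℝ) (hε : 0 < ε) : ∀ᶠ n : ℕ in atTop, ∀ (A : Matrix (Fin n) (Fin n) ℝ)
    (μ r : ℝ), A.det ≠ 0 → 0 ≤ μ → 0 < r → Relaxed μ r A →
      volume.real (ball (0 : EuclideanSpace ℝ (Fin n)) r) / |A.det| ≤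
        Real.exp (ε * n) * ((2 * Real.exp 1 / Real.pi) ^ ((n : ℝ) / 2) + μ) := by
  classical
  obtain ⟨n₀, hn₀⟩ := robust_fin ε hε
  filter_upwards [eventually_ge_atTop n₀, eventually_gt_atTop 0] with n hn hn0 A μ r hA hμ hr hR
  have : Nonempty (Fin n) := ⟨⟨0, hn0⟩⟩
  have hvol : ∀ s : ℝ, 0 < s → volume.real (ball (0 : EuclideanSpace ℝ (Fin n)) s) =
      s ^ n * volume.real (ball (0 : EuclideanSpace ℝ (Fin n)) 1) := fun s hs => by
    rw [measureReal_def, Measure.addHaar_ball_of_pos _ _ hs, ENNReal.toReal_mul,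
      ENNReal.toReal_ofReal (by positivity), finrank_euclideanSpace_fin, measureReal_def]
  set v : ℝ := volume.real (ball (0 : EuclideanSpace ℝ (Fin n)) 1) with hv
  have hv0 : 0 < v := by
    rw [hv, measureReal_def]
    exact ENNReal.toReal_pos (Metric.measure_ball_pos volume _ one_pos).ne'
      measure_ball_lt_top.ne
  have hdet : 0 < |A.det| := abs_pos.2 hA
  obtain ⟨D, hD0, hD⟩ := card_ge hn0 hA
  have hvr : 0 < r ^ n * v := by positivity
  set C : ℝ := Real.exp (ε * n) * ((2 * Real.exp 1 / Real.pi) ^ ((n : ℝ) / 2) + μ) with hC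
  rw [hvol r hr, div_le_iff₀ hdet]
  -- it is enough to prove it with an error `δ`
  refine le_of_forall_pos_le_add fun η hη => ?_
  set δ : ℝ := η / (|A.det| * (r ^ n * v)) with hδ
  have hδ0 : 0 < δ := by positivity
  have hmain := hn₀ n hn r hr (μ / (r ^ n * v)) (by positivity) δ hδ0
  set K : ℝ := Real.exp (ε * n) * ((2 * Real.exp 1 / Real.pi) ^ ((n : ℝ) / 2) / (r ^ n * v) +
    μ / (r ^ n * v)) + δ with hK
  have h1 : ∀ᶠ T : ℝ in atTop, (1 - D / T) ^ n ≤ K * |A.det| := by
    filter_upwards [hmain, eventually_gt_atTop (max D 0)] with T hT hTD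
    have hTD' : D < T := (le_max_left _ _).trans_lt hTD
    have hT0 : 0 < T := (le_max_right _ _).trans_lt hTD
    have hfin : {w : Fin n → ℤ | nsq A w < T ^ 2}.Finite := finite_lt hA (T ^ 2)
    set W := hfin.toFinset with hW
    have hmemW : ∀ w, w ∈ W ↔ nsq A w < T ^ 2 := by
      intro w; rw [hW, Set.Finite.mem_toFinset]; rfl
    set P : Finset (EuclideanSpace ℝ (Fin n)) := W.image fun w => A.toLpLin 2 2 (toE w) with hP
    have hPc : P.card = W.card :=
      Finset.card_image_of_injective _ ((lin_inj hA).comp toE_inj)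
    have h2 := hT P ?_ ?_
    · have h3 := hD T hTD' W hmemW
      rw [hvol (T - D) (by linarith)] at h3
      rw [hPc, hvol r hr, hvol T hT0] at h2
      have h4 : (T - D) ^ n * v ≤ K * (T ^ n * v) * |A.det| :=
        h3.trans (mul_le_mul_of_nonneg_right h2 hdet.le)
      have h5 : (T - D) ^ n = (1 - D / T) ^ n * T ^ n := by
        rw [← mul_pow]
        congr 1
        field_simp
      rw [h5] at h4
      have h6 : 0 < T ^ n * v := by positivity
      refine le_of_mul_le_mul_right ?_ h6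
      linarith
    · intro x hx
      rw [hP, Finset.mem_image] at hx
      obtain ⟨w, hw, rfl⟩ := hx
      rw [hmemW, ← norm_sq_eq] at hw
      exact lt_of_pow_lt_pow_left₀ 2 hT0.le hw
    · intro s hs0 hs
      have h7 := nearPairs_lattice hA W hs0 (P := P) (fun x hx => by
        rw [hP, Finset.mem_image] at hx
        obtain ⟨w, _, hw⟩ := hx
        exact ⟨w, hw⟩)
      calc ((nearPairs P s).card : ℝ) ≤ shortCount A s * P.card := by exact_mod_cast h7
        _ ≤ (μ * (s / r) ^ n) * P.card :=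
            mul_le_mul_of_nonneg_right (hR s hs0 hs) (Nat.cast_nonneg _)
        _ = _ := by
            rw [hvol s hs0, div_pow]
            field_simp
  have h8 : Tendsto (fun T : ℝ => (1 - D / T) ^ n) atTop (𝓝 ((1 - 0) ^ n)) :=
    ((tendsto_const_nhds.div_atTop tendsto_id).const_sub 1).pow n
  rw [sub_zero, one_pow] at h8
  have h9 : 1 ≤ K * |A.det| := le_of_tendsto h8 h1
  calc r ^ n * v = 1 * (r ^ n * v) := by ring
    _ ≤ K * |A.det| * (r ^ n * v) := mul_le_mul_of_nonneg_right h9 hvr.le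
    _ = C * |A.det| + η := by
        rw [hK, hδ, hC]
        field_simp

end Pool.Agent.H779.LT
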