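import Mathlib
import Pool.Agent.H779.LT.Up
import Pool.Agent.H779.LT.Low
import Pool.Graph.R_seed8.TH220.HG.Vol

/-!
Asymptotics of the relaxed Hermite constants.
-/

set_option autoImplicit false

open MeasureTheory Filter Topology Metric

namespace Pool.Agent.H779.LT

open Pool.Agent.H160R3.Herm Pool.Agent.TH220.HG Pool.Agent.H779.RB

variable {n : ℕ}

theorem relHermite_eq (hn : 0 < n) {μ : ℝ} (h0 : 0 ≤ μ) (h1 : μ ≤ 1) :
    relHermite n μ = hermite n := by
  refine le_antisymm ?_ (hermite_le_relHermite hn h0)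
  have := relHermite_le_hermite hn h0
  rwa [max_eq_left h1, Real.one_rpow, one_mul] at this

/-- the constant `2 π e` -/
theorem tpe_pos : 0 < 2 * Real.pi * Real.exp 1 := by positivity

theorem ball_real_ge (hn : 0 < n) {r : ℝ} (hr : 0 ≤ r) :
    (√(2 * Real.pi * Real.exp 1 / n) * r) ^ n / (3 * n) ≤
      volume.real (ball (0 : EuclideanSpace ℝ (Fin n)) r) := by
  rw [measureReal_def]
  exact (ENNReal.ofReal_le_iff_le_toReal measure_ball_lt_top.ne).1
    (Pool.Agent.H390R2.LP.volume_ball_ge n hn 0 r hr)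

theorem ball_real_le (hn : 0 < n) {r : ℝ} (hr : 0 ≤ r) :
    volume.real (ball (0 : EuclideanSpace ℝ (Fin n)) r) ≤
      (√(2 * Real.pi * Real.exp 1 / n) * r) ^ n := by
  rw [measureReal_def]
  exact ENNReal.toReal_le_of_le_ofReal (by positivity)
    (Pool.Agent.TH220.HG.volume_ball_le n hn 0 r hr)

theorem pow_two_div (hn : 0 < n) {x : ℝ} (hx : 0 ≤ x) : (x ^ n) ^ ((2 : ℝ) / n) = x ^ 2 := by
  have hn' : (n : ℝ) ≠ 0 := by exact_mod_cast hn.ne'
  rw [← Real.rpow_natCast x n, ← Real.rpow_mul hx, mul_div_cancel₀ _ hn', ← Real.rpow_natCast]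
  norm_num

/-- polynomial factors -/
theorem tendsto_poly {a b : ℝ} (ha : 0 ≤ a) (hb : 1 ≤ b) :
    Tendsto (fun n : ℕ => (a * n + b : ℝ) ^ ((2 : ℝ) / n)) atTop (𝓝 1) := by
  have hab : 0 < a + b := by linarith
  have h1 : Tendsto (fun n : ℕ => ((a + b) * n : ℝ) ^ ((2 : ℝ) / n)) atTop (𝓝 1) := by
    have h2 : Tendsto (fun n : ℕ => Real.exp (Real.log ((a + b) * n) / ((a + b) * n) *
        (2 * (a + b)))) atTop (𝓝 (Real.exp (0 * (2 * (a + b))))) := by
      apply (Real.continuous_exp.tendsto _).comp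
      apply Tendsto.mul_const
      have h3 : Tendsto (fun x : ℝ => Real.log x / x) atTop (𝓝 0) :=
        Real.isLittleO_log_id_atTop.tendsto_div_nhds_zero
      exact h3.comp (tendsto_natCast_atTop_atTop.const_mul_atTop hab)
    rw [zero_mul, Real.exp_zero] at h2
    refine h2.congr' ?_
    filter_upwards [eventually_gt_atTop 0] with n hn
    have hn' : (0 : ℝ) < n := by exact_mod_cast hn
    rw [Real.rpow_def_of_pos (by positivity)]
    congr 1
    field_simp
  refine tendsto_of_tendsto_of_tendsto_of_le_of_le' tendsto_const_nhds h1 ?_ ?_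
  · filter_upwards [eventually_gt_atTop 0] with n hn
    have hn' : (0 : ℝ) < n := by exact_mod_cast hn
    refine Real.one_le_rpow ?_ (by positivity)
    have : 0 ≤ a * n := by positivity
    linarith
  · filter_upwards [eventually_gt_atTop 0] with n hn
    have hn' : (1 : ℝ) ≤ n := by exact_mod_cast hn
    refine Real.rpow_le_rpow (by positivity) ?_ (by positivity)
    nlinarith

/-- **The upper bound for the relaxed Hermite constants.** -/
theorem rel_upper (ε : ℝ) (hε : 0 < ε) : ∀ᶠ n : ℕ in atTop, ∀ μ : ℝ, 0 ≤ μ →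
    relHermite n μ ≤ (1 + ε) * ((2 * Real.exp 1 / Real.pi) ^ ((n : ℝ) / 2) + μ) ^ ((2 : ℝ) / n) *
      (n / (2 * Real.pi * Real.exp 1)) := by
  have hpi := Real.pi_pos
  obtain ⟨ε', hε', hε1⟩ : ∃ ε' : ℝ, 0 < ε' ∧ Real.exp (2 * ε') < 1 + ε := by
    refine ⟨Real.log (1 + ε) / 4, by have := Real.log_pos (show 1 < 1 + ε by linarith); positivity,
      ?_⟩
    rw [← Real.lt_log_iff_exp_lt (by linarith)]
    have := Real.log_pos (show 1 < 1 + ε by linarith)
    linarith
  have h3n : Tendsto (fun n : ℕ => Real.exp (2 * ε') * (3 * n + 1 : ℝ) ^ ((2 : ℝ) / n)) atTop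
      (𝓝 (Real.exp (2 * ε') * 1)) := (tendsto_poly (by norm_num) le_rfl).const_mul _
  rw [mul_one] at h3n
  filter_upwards [upper ε' hε', h3n.eventually_le_const hε1, eventually_gt_atTop 0]
    with n hn h3 hn0 μ hμ
  have hn' : (0 : ℝ) < n := by exact_mod_cast hn0
  refine relHermite_le hn0 hμ fun A r hA hr hR => ?_
  have hdet : 0 < |A.det| := abs_pos.2 hA
  set X : ℝ := (2 * Real.exp 1 / Real.pi) ^ ((n : ℝ) / 2) + μ with hX
  have hX0 : 0 < X := by positivity
  have h1 := hn A μ r hA hμ hr hR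
  have h2 := ball_real_ge hn0 hr.le
  rw [div_le_iff₀ hdet] at h1
  have h4 : (√(2 * Real.pi * Real.exp 1 / n) * r) ^ n ≤
      Real.exp (ε' * n) * X * |A.det| * (3 * n) := by
    have := h2.trans h1
    rwa [div_le_iff₀ (by positivity)] at this
  have h5 := Real.rpow_le_rpow (by positivity) h4 (show (0 : ℝ) ≤ 2 / n by positivity)
  rw [pow_two_div hn0 (by positivity), mul_pow, Real.sq_sqrt (by positivity),
    Real.mul_rpow (by positivity) (by positivity), Real.mul_rpow (by positivity) (by positivity),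
    Real.mul_rpow (by positivity) (by positivity), ← Real.exp_mul] at h5
  have e1 : ε' * n * (2 / n) = 2 * ε' := by field_simp
  rw [e1] at h5
  have h6 : (3 * n : ℝ) ^ ((2 : ℝ) / n) ≤ (3 * n + 1 : ℝ) ^ ((2 : ℝ) / n) :=
    Real.rpow_le_rpow (by positivity) (by linarith) (by positivity)
  have hdp : 0 < |A.det| ^ ((2 : ℝ) / n) := by positivity
  have hXp : 0 < X ^ ((2 : ℝ) / n) := by positivity
  rw [div_le_iff₀ hdp]
  have h7 : r ^ 2 = (2 * Real.pi * Real.exp 1 / n * r ^ 2) * (n / (2 * Real.pi * Real.exp 1)) := by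
    field_simp
  rw [h7]
  have h8 : Real.exp (2 * ε') * X ^ ((2 : ℝ) / n) * |A.det| ^ ((2 : ℝ) / n) *
      (3 * n : ℝ) ^ ((2 : ℝ) / n) ≤ (1 + ε) * X ^ ((2 : ℝ) / n) * |A.det| ^ ((2 : ℝ) / n) := by
    calc _ = (Real.exp (2 * ε') * (3 * n : ℝ) ^ ((2 : ℝ) / n)) *
          (X ^ ((2 : ℝ) / n) * |A.det| ^ ((2 : ℝ) / n)) := by ring
      _ ≤ (1 + ε) * (X ^ ((2 : ℝ) / n) * |A.det| ^ ((2 : ℝ) / n)) := by
          refine mul_le_mul_of_nonneg_right ?_ (by positivity)
          exact (mul_le_mul_of_nonneg_left h6 (Real.exp_pos _).le).trans h3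
      _ = _ := by ring
  calc (2 * Real.pi * Real.exp 1 / n * r ^ 2) * (n / (2 * Real.pi * Real.exp 1))
      ≤ ((1 + ε) * X ^ ((2 : ℝ) / n) * |A.det| ^ ((2 : ℝ) / n)) *
        (n / (2 * Real.pi * Real.exp 1)) :=
        mul_le_mul_of_nonneg_right (h5.trans h8) (by positivity)
    _ = _ := by ring

/-- **The lower bound for the relaxed Hermite constants.** -/
theorem rel_lower' (hn : 2 ≤ n) {μ : ℝ} (hμ : 1 ≤ μ) :
    (μ / (10 * (Real.logb 2 μ + 2))) ^ ((2 : ℝ) / n) * (n / (2 * Real.pi * Real.exp 1)) ≤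
      relHermite n μ := by
  have hn0 : 0 < n := by omega
  have hn' : (0 : ℝ) < n := by exact_mod_cast hn0
  have hpi := Real.pi_pos
  have hL := Real.logb_nonneg (b := 2) (by norm_num) hμ
  have : Nonempty (Fin n) := ⟨⟨0, hn0⟩⟩
  refine le_trans ?_ (rel_lower hn hμ)
  set v := volume.real (ball (0 : EuclideanSpace ℝ (Fin n)) 1) with hv
  have hv0 : 0 < v := by
    rw [hv, measureReal_def]
    exact ENNReal.toReal_pos (Metric.measure_ball_pos volume _ one_pos).ne'
      measure_ball_lt_top.ne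
  have h1 : v ≤ √(2 * Real.pi * Real.exp 1 / n) ^ n := by
    have := ball_real_le hn0 (zero_le_one (α := ℝ))
    rwa [mul_one] at this
  have h2 : v ^ ((2 : ℝ) / n) ≤ 2 * Real.pi * Real.exp 1 / n := by
    have := Real.rpow_le_rpow hv0.le h1 (show (0 : ℝ) ≤ 2 / n by positivity)
    rwa [pow_two_div hn0 (by positivity), Real.sq_sqrt (by positivity)] at this
  rw [← div_div μ (10 * (Real.logb 2 μ + 2)) v, Real.div_rpow (x := μ / (10 * (Real.logb 2 μ + 2)))
    (by positivity) hv0.le]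
  have h3 : 0 < v ^ ((2 : ℝ) / n) := by positivity
  have h4 : (n : ℝ) / (2 * Real.pi * Real.exp 1) ≤ 1 / v ^ ((2 : ℝ) / n) := by
    rw [div_le_div_iff₀ (by positivity) h3]
    rw [le_div_iff₀ hn'] at h2
    linarith
  calc _ ≤ (μ / (10 * (Real.logb 2 μ + 2))) ^ ((2 : ℝ) / n) * (1 / v ^ ((2 : ℝ) / n)) :=
        mul_le_mul_of_nonneg_left h4 (by positivity)
    _ = _ := by ring

theorem two_rpow_two_div (hn : 0 < n) (u : ℝ) : ((2 : ℝ) ^ (u * n)) ^ ((2 : ℝ) / n) = 4 ^ u := by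
  have hn' : (n : ℝ) ≠ 0 := by exact_mod_cast hn.ne'
  rw [← Real.rpow_mul (by norm_num), show (4 : ℝ) = 2 ^ (2 : ℝ) by norm_num,
    ← Real.rpow_mul (by norm_num)]
  congr 1
  field_simp

theorem one_le_two_rpow {u : ℝ} (hu : 0 ≤ u) (n : ℕ) : (1 : ℝ) ≤ 2 ^ (u * n) :=
  Real.one_le_rpow (by norm_num) (by positivity)

/-- the lower limit -/
theorem ratio_lower {u : ℝ} (hu : 0 ≤ u) {c : ℝ} (hc : c < 4 ^ u / (2 * Real.pi * Real.exp 1)) :
    ∀ᶠ n : ℕ in atTop, c < relRatio u n := by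
  have hpi := Real.pi_pos
  have h1 : Tendsto (fun n : ℕ => 4 ^ u / (2 * Real.pi * Real.exp 1) /
      (10 * u * n + 20 : ℝ) ^ ((2 : ℝ) / n)) atTop (𝓝 (4 ^ u / (2 * Real.pi * Real.exp 1) / 1)) :=
    tendsto_const_nhds.div (tendsto_poly (by positivity) (by norm_num)) one_ne_zero
  rw [div_one] at h1
  filter_upwards [h1.eventually_const_lt hc, eventually_ge_atTop 2] with n hn hn2
  have hn0 : 0 < n := by omega
  have hn' : (0 : ℝ) < n := by exact_mod_cast hn0
  refine hn.trans_le ?_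
  unfold relRatio
  rw [le_div_iff₀ hn']
  have h2 := rel_lower' hn2 (one_le_two_rpow hu n)
  rw [Real.logb_rpow (by norm_num) (by norm_num), Real.div_rpow (by positivity) (by positivity),
    two_rpow_two_div hn0] at h2
  have e : 10 * (u * n + 2) = 10 * u * n + 20 := by ring
  rw [e] at h2
  refine le_trans (le_of_eq ?_) h2
  ring

/-- convergence is a question on the upper bound -/
theorem ratio_tendsto {u : ℝ} (hu : 0 ≤ u) (h : ∀ c, 4 ^ u / (2 * Real.pi * Real.exp 1) < c →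
    ∀ᶠ n : ℕ in atTop, relRatio u n ≤ c) :
    Tendsto (relRatio u) atTop (𝓝 (4 ^ u / (2 * Real.pi * Real.exp 1))) := by
  rw [tendsto_order]
  refine ⟨fun a ha => ratio_lower hu ha, fun b hb => ?_⟩
  obtain ⟨c, hc1, hc2⟩ := exists_between hb
  filter_upwards [h c hc1] with n hn
  exact hn.trans_lt hc2

/-- **The limit for large parameters.** -/
theorem ratio_limit {u : ℝ} (hu : 1 / 2 * Real.logb 2 (2 * Real.exp 1 / Real.pi) ≤ u) :
    Tendsto (relRatio u) atTop (𝓝 (4 ^ u / (2 * Real.pi * Real.exp 1))) := by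
  have hpi := Real.pi_pos
  have hbase : (1 : ℝ) ≤ 2 * Real.exp 1 / Real.pi := by
    rw [le_div_iff₀ hpi]
    have h2 := Real.pi_le_four
    have h3 := Real.add_one_le_exp (1 : ℝ)
    linarith
  have hlog := Real.logb_nonneg (b := 2) (by norm_num) hbase
  have hu0 : 0 ≤ u := by linarith
  refine ratio_tendsto hu0 fun c hc => ?_
  have hK : 0 < 4 ^ u / (2 * Real.pi * Real.exp 1) := by positivity
  obtain ⟨ε, hε, hεc⟩ : ∃ ε : ℝ, 0 < ε ∧ (1 + ε) * (4 ^ u / (2 * Real.pi * Real.exp 1)) < c := by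
    refine ⟨(c / (4 ^ u / (2 * Real.pi * Real.exp 1)) - 1) / 2, ?_, ?_⟩
    · have : 1 < c / (4 ^ u / (2 * Real.pi * Real.exp 1)) := by rwa [lt_div_iff₀ hK, one_mul]
      linarith
    · have : 1 < c / (4 ^ u / (2 * Real.pi * Real.exp 1)) := by rwa [lt_div_iff₀ hK, one_mul]
      calc _ = (1 + c / (4 ^ u / (2 * Real.pi * Real.exp 1))) / 2 *
            (4 ^ u / (2 * Real.pi * Real.exp 1)) := by ring
        _ < c / (4 ^ u / (2 * Real.pi * Real.exp 1)) * (4 ^ u / (2 * Real.pi * Real.exp 1)) :=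
            mul_lt_mul_of_pos_right (by linarith) hK
        _ = c := by field_simp
  have h1 : Tendsto (fun n : ℕ => (1 + ε) * (4 ^ u / (2 * Real.pi * Real.exp 1)) *
      (0 * n + 2 : ℝ) ^ ((2 : ℝ) / n)) atTop
      (𝓝 ((1 + ε) * (4 ^ u / (2 * Real.pi * Real.exp 1)) * 1)) :=
    (tendsto_poly le_rfl (by norm_num)).const_mul _
  rw [mul_one] at h1
  filter_upwards [rel_upper ε hε, h1.eventually_le_const hεc, eventually_gt_atTop 0]
    with n hn h2 hn0
  have hn' : (0 : ℝ) < n := by exact_mod_cast hn0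
  refine le_trans ?_ h2
  unfold relRatio
  rw [div_le_iff₀ hn']
  refine (hn (2 ^ (u * n)) (by positivity)).trans ?_
  have h3 : (2 * Real.exp 1 / Real.pi) ^ ((n : ℝ) / 2) ≤ 2 ^ (u * n) := by
    have h4 : (2 : ℝ) ^ (Real.logb 2 (2 * Real.exp 1 / Real.pi)) = 2 * Real.exp 1 / Real.pi :=
      Real.rpow_logb (by norm_num) (by norm_num) (by positivity)
    calc (2 * Real.exp 1 / Real.pi) ^ ((n : ℝ) / 2) =
          ((2 : ℝ) ^ (Real.logb 2 (2 * Real.exp 1 / Real.pi))) ^ ((n : ℝ) / 2) := by rw [h4]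
      _ = (2 : ℝ) ^ (Real.logb 2 (2 * Real.exp 1 / Real.pi) * (n / 2)) := by
          rw [← Real.rpow_mul (by norm_num)]
      _ ≤ 2 ^ (u * n) := by
          refine Real.rpow_le_rpow_of_exponent_le (by norm_num) ?_
          nlinarith
  have h5 : ((2 * Real.exp 1 / Real.pi) ^ ((n : ℝ) / 2) + 2 ^ (u * n)) ^ ((2 : ℝ) / n) ≤
      4 ^ u * (0 * n + 2 : ℝ) ^ ((2 : ℝ) / n) := by
    calc ((2 * Real.exp 1 / Real.pi) ^ ((n : ℝ) / 2) + 2 ^ (u * n)) ^ ((2 : ℝ) / n) ≤
          (2 ^ (u * n) * (0 * n + 2 : ℝ)) ^ ((2 : ℝ) / n) :=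
          Real.rpow_le_rpow (by positivity) (by linarith) (by positivity)
      _ = _ := by
          rw [Real.mul_rpow (by positivity) (by positivity), two_rpow_two_div hn0]
  calc (1 + ε) * ((2 * Real.exp 1 / Real.pi) ^ ((n : ℝ) / 2) + 2 ^ (u * n)) ^ ((2 : ℝ) / n) *
        (n / (2 * Real.pi * Real.exp 1)) ≤ (1 + ε) * (4 ^ u * (0 * n + 2 : ℝ) ^ ((2 : ℝ) / n)) *
        (n / (2 * Real.pi * Real.exp 1)) := by gcongr
    _ = _ := by ring

/-- thinning for the ratios -/
theorem ratio_thin (hn : 0 < n) {u v : ℝ} (hu : 0 ≤ u) (huv : u ≤ v) :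
    relRatio v n ≤ (5 * u * n + 10) ^ ((2 : ℝ) / n) * 4 ^ (v - u) * relRatio u n := by
  have hn' : (0 : ℝ) < n := by exact_mod_cast hn
  have h1 := rel_thin hn (one_le_two_rpow hu n) (μ' := 2 ^ (v * n))
    (Real.rpow_le_rpow_of_exponent_le (by norm_num) (by gcongr))
  rw [Real.logb_rpow (by norm_num) (by norm_num), ← Real.rpow_sub (by norm_num), ← sub_mul,
    Real.mul_rpow (by positivity) (by positivity), two_rpow_two_div hn] at h1
  have e : 5 * (u * n + 2) = 5 * u * n + 10 := by ring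
  rw [e] at h1
  unfold relRatio
  rw [div_le_iff₀ hn']
  refine h1.trans (le_of_eq ?_)
  field_simp

/-- **One threshold.** -/
theorem ratio_threshold {u v : ℝ} (hu : 0 ≤ u) (huv : u ≤ v)
    (h : Tendsto (relRatio u) atTop (𝓝 (4 ^ u / (2 * Real.pi * Real.exp 1)))) :
    Tendsto (relRatio v) atTop (𝓝 (4 ^ v / (2 * Real.pi * Real.exp 1))) := by
  refine ratio_tendsto (hu.trans huv) fun c hc => ?_
  have h1 : Tendsto (fun n : ℕ => (5 * u * n + 10 : ℝ) ^ ((2 : ℝ) / n) * 4 ^ (v - u) *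
      relRatio u n) atTop (𝓝 (1 * 4 ^ (v - u) * (4 ^ u / (2 * Real.pi * Real.exp 1)))) :=
    ((tendsto_poly (by positivity) (by norm_num)).mul_const _).mul h
  have e : 1 * (4 : ℝ) ^ (v - u) * (4 ^ u / (2 * Real.pi * Real.exp 1)) =
      4 ^ v / (2 * Real.pi * Real.exp 1) := by
    rw [one_mul, mul_div_assoc', ← Real.rpow_add (by norm_num)]
    congr 2
    ring
  rw [e] at h1
  filter_upwards [h1.eventually_le_const hc, eventually_gt_atTop 0] with n hn hn0
  exact (ratio_thin hn0 hu huv).trans hn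

theorem ratio_zero (hn : 0 < n) : relRatio 0 n = hermite n / n := by
  unfold relRatio
  rw [zero_mul, Real.rpow_zero, relHermite_eq hn zero_le_one le_rfl]

theorem hermite_le_ratio (hn : 0 < n) (u : ℝ) : hermite n / n ≤ relRatio u n := by
  have hn' : (0 : ℝ) < n := by exact_mod_cast hn
  unfold relRatio
  exact div_le_div_of_nonneg_right (hermite_le_relHermite hn (by positivity)) hn'.le

theorem ratio_le_hermite (hn : 0 < n) {u : ℝ} (hu : 0 ≤ u) :
    relRatio u n ≤ 4 ^ u * (hermite n / n) := by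
  have hn' : (0 : ℝ) < n := by exact_mod_cast hn
  unfold relRatio
  rw [div_le_iff₀ hn']
  refine (relHermite_le_hermite hn (by positivity)).trans (le_of_eq ?_)
  rw [max_eq_right (one_le_two_rpow hu n), two_rpow_two_div hn]
  field_simp

/-- **The believed value of the limit.** -/
theorem belief_iff : Tendsto (fun n : ℕ => hermite n / n) atTop
    (𝓝 (1 / (2 * Real.pi * Real.exp 1))) ↔ ∀ u : ℝ, 0 < u →
      Tendsto (relRatio u) atTop (𝓝 (4 ^ u / (2 * Real.pi * Real.exp 1))) := by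
  have hpi := Real.pi_pos
  have h0 : Tendsto (fun n : ℕ => hermite n / n) atTop (𝓝 (1 / (2 * Real.pi * Real.exp 1))) ↔
      Tendsto (relRatio 0) atTop (𝓝 (4 ^ (0 : ℝ) / (2 * Real.pi * Real.exp 1))) := by
    rw [Real.rpow_zero]
    refine tendsto_congr' ?_
    filter_upwards [eventually_gt_atTop 0] with n hn
    exact (ratio_zero hn).symm
  constructor
  · intro h u hu
    exact ratio_threshold le_rfl hu.le (h0.1 h)
  · intro h
    rw [h0]
    refine ratio_tendsto le_rfl fun c hc => ?_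
    rw [Real.rpow_zero] at hc
    -- a small `u`
    have h1 : Tendsto (fun u : ℝ => (4 : ℝ) ^ u / (2 * Real.pi * Real.exp 1)) (𝓝[>] 0)
        (𝓝 ((4 : ℝ) ^ (0 : ℝ) / (2 * Real.pi * Real.exp 1))) := by
      refine Tendsto.mono_left ?_ nhdsWithin_le_nhds
      have hc : Continuous fun u : ℝ => (4 : ℝ) ^ u / (2 * Real.pi * Real.exp 1) := by
        refine Continuous.div_const ?_ _
        exact Real.continuous_const_rpow (by norm_num)
      exact hc.tendsto 0
    rw [Real.rpow_zero] at h1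
    obtain ⟨u, hu1, hu2⟩ := ((h1.eventually_lt_const hc).and self_mem_nhdsWithin).exists
    filter_upwards [(h u hu2).eventually_le_const hu1, eventually_gt_atTop 0] with n hn hn0
    rw [ratio_zero hn0]
    exact (hermite_le_ratio hn0 u).trans hn

/-- **Convergence for small parameters implies convergence for Hermite's constant.** -/
theorem converge_of_small (h : ∀ δ : ℝ, 0 < δ → ∃ u : ℝ, 0 < u ∧ u < δ ∧ ∃ L : ℝ,
    Tendsto (relRatio u) atTop (𝓝 L)) : ∃ L : ℝ, Tendsto (fun n : ℕ => hermite n / n) atTop (𝓝 L) := by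
  refine cauchySeq_tendsto_of_complete ?_
  rw [Metric.cauchySeq_iff]
  intro ε hε
  have h1 : Tendsto (fun u : ℝ => (4 : ℝ) ^ u) (𝓝[>] 0) (𝓝 ((4 : ℝ) ^ (0 : ℝ))) :=
    ((Real.continuous_const_rpow (by norm_num)).tendsto 0).mono_left nhdsWithin_le_nhds
  rw [Real.rpow_zero] at h1
  have h2 := h1.eventually_lt_const (show (1 : ℝ) < 1 + ε / 4 by linarith)
  rw [eventually_nhdsWithin_iff, Metric.eventually_nhds_iff] at h2
  obtain ⟨δ, hδ, h3⟩ := h2
  obtain ⟨u, hu0, huδ, L, hL⟩ := h δ hδ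
  have h4 : (4 : ℝ) ^ u < 1 + ε / 4 := h3 (by rwa [dist_zero_right, Real.norm_eq_abs,
    abs_of_pos hu0]) hu0
  obtain ⟨N, hN⟩ := Metric.cauchySeq_iff.1 hL.cauchySeq (ε / 4) (by positivity)
  have h5 : ∀ n : ℕ, 0 < n → |hermite n / n - relRatio u n| ≤ ε / 4 := by
    intro n hn
    have hn' : (0 : ℝ) < n := by exact_mod_cast hn
    have h6 := hermite_le_ratio hn u
    have h7 := ratio_le_hermite hn hu0.le
    have h8 : hermite n / n ≤ 1 := by rw [div_le_one hn']; exact hermite_le hn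
    have h9 : 0 ≤ hermite n / n := div_nonneg (Pool.Agent.TH220.HG.hermite_nonneg' n) hn'.le
    rw [abs_sub_comm, abs_of_nonneg (by linarith)]
    nlinarith
  refine ⟨max N 1, fun m hm n hn => ?_⟩
  have hm1 := (le_max_left _ _).trans hm
  have hn1 := (le_max_left _ _).trans hn
  have hm2 : 0 < m := (le_max_right _ _).trans hm
  have hn2 : 0 < n := (le_max_right _ _).trans hn
  have h10 := hN m hm1 n hn1
  rw [Real.dist_eq] at h10 ⊢
  have e : hermite m / m - hermite n / n = (hermite m / m - relRatio u m) +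
      (relRatio u m - relRatio u n) - (hermite n / n - relRatio u n) := by ring
  rw [e]
  have h11 := abs_sub ((hermite m / m - relRatio u m) + (relRatio u m - relRatio u n))
    (hermite n / n - relRatio u n)
  have h12 := abs_add_le (hermite m / m - relRatio u m) (relRatio u m - relRatio u n)
  have h13 := h5 m hm2
  have h14 := h5 n hn2
  linarith

/-- **Every lattice reaches the expected number of vectors.** -/
theorem reaches (ε : ℝ) (hε : 0 < ε) : ∀ᶠ n : ℕ in atTop, ∀ (A : Matrix (Fin n) (Fin n) ℝ)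
    (R : ℝ), A.det ≠ 0 → 0 < R → Real.exp (ε * n) * (2 * Real.exp 1 / Real.pi) ^ ((n : ℝ) / 2) ≤
      volume.real (ball (0 : EuclideanSpace ℝ (Fin n)) R) / |A.det| →
    ∃ s : ℝ, 0 < s ∧ s ≤ R ∧ volume.real (ball (0 : EuclideanSpace ℝ (Fin n)) s) / |A.det| ≤
      Real.exp (ε * n) * shortCount A s := by
  have h1 : Tendsto (fun n : ℕ => Real.exp (ε / 2 * n)) atTop atTop :=
    Real.tendsto_exp_atTop.comp (tendsto_natCast_atTop_atTop.const_mul_atTop (by positivity))
  filter_upwards [upper (ε / 2) (by positivity), h1.eventually_gt_atTop 2, eventually_gt_atTop 0]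
    with n hn h2 hn0 A R hA hR hRA
  have : Nonempty (Fin n) := ⟨⟨0, hn0⟩⟩
  by_contra hcon
  push Not at hcon
  have hdet : 0 < |A.det| := abs_pos.2 hA
  set V := volume.real (ball (0 : EuclideanSpace ℝ (Fin n)) R) / |A.det| with hV
  have hV0 : 0 ≤ V := by positivity
  have hvol : ∀ s : ℝ, 0 < s → volume.real (ball (0 : EuclideanSpace ℝ (Fin n)) s) =
      s ^ n * volume.real (ball (0 : EuclideanSpace ℝ (Fin n)) 1) := fun s hs => by
    rw [measureReal_def, Measure.addHaar_ball_of_pos _ _ hs, ENNReal.toReal_mul,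
      ENNReal.toReal_ofReal (by positivity), finrank_euclideanSpace_fin, measureReal_def]
  have h3 : Relaxed (Real.exp (-(ε * n)) * V) R A := by
    intro s hs0 hs
    have h4 := (hcon s hs0 hs).le
    have h5 : (shortCount A s : ℝ) = Real.exp (-(ε * n)) * (Real.exp (ε * n) * shortCount A s) := by
      rw [← mul_assoc, ← Real.exp_add]
      simp
    rw [h5]
    calc _ ≤ Real.exp (-(ε * n)) * (volume.real (ball (0 : EuclideanSpace ℝ (Fin n)) s) /
          |A.det|) := mul_le_mul_of_nonneg_left h4 (Real.exp_pos _).le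
      _ = _ := by
          rw [hV, hvol s hs0, hvol R hR, div_pow]
          field_simp
  have h6 := hn A _ R hA (by positivity) hR h3
  rw [← hV, mul_add] at h6
  -- contradiction
  have hE : 0 < Real.exp (ε / 2 * n) := Real.exp_pos _
  have e1 : Real.exp (ε / 2 * n) * (Real.exp (-(ε * n)) * V) = Real.exp (-(ε / 2 * n)) * V := by
    rw [← mul_assoc, ← Real.exp_add]
    congr 2
    ring
  have e2 : Real.exp (ε / 2 * n) * (2 * Real.exp 1 / Real.pi) ^ ((n : ℝ) / 2) ≤
      Real.exp (-(ε / 2 * n)) * V := by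
    have h7 : Real.exp (ε / 2 * n) = Real.exp (-(ε / 2 * n)) * Real.exp (ε * n) := by
      rw [← Real.exp_add]
      congr 1
      ring
    rw [h7, mul_assoc]
    exact mul_le_mul_of_nonneg_left hRA (Real.exp_pos _).le
  rw [e1] at h6
  have h8 : V ≤ 2 * Real.exp (-(ε / 2 * n)) * V := by linarith
  have hVpos : 0 < V := by
    have hpi := Real.pi_pos
    refine lt_of_lt_of_le ?_ hRA
    positivity
  have h9 : 2 * Real.exp (-(ε / 2 * n)) < 1 := by
    rw [Real.exp_neg, ← div_eq_mul_inv, div_lt_one hE]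
    exact h2
  nlinarith

end Pool.Agent.H779.LT
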